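import Pool.Agent.helper19.MX.SpecD

set_option autoImplicit false

namespace MX

open Pool.Agent.helper53.AU AN
open scoped Classical Topology

noncomputable section

theorem PSY_two (k : Type) [Field k] [CharP k 2] : (2 : LS k) = 0 := by
  have h1 : (2 : k) = 0 := by
    have := CharP.cast_eq_zero k 2
    exact_mod_cast this
  have h2 : (2 : LS k) = LS.C 2 := (map_ofNat (LS.C : k →+* LS k) 2).symm
  rw [h2, h1, map_zero]

/-- the partial sums -/
def PSY_S {k : Type} [Field k] (P : LS k) : ℕ → LS k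
  | 0 => P
  | n + 1 => PSY_S P n ^ 2 + P

theorem PSY_id {k : Type} [Field k] (h2 : (2 : LS k) = 0) (P : LS k) (n : ℕ) :
    PSY_S P n ^ 2 + PSY_S P n = P ^ (2 ^ (n + 1)) + P := by
  induction n with
  | zero => rfl
  | succ n ih =>
    show (PSY_S P n ^ 2 + P) ^ 2 + (PSY_S P n ^ 2 + P) = _
    have e1 : (PSY_S P n ^ 2 + P) ^ 2 + (PSY_S P n ^ 2 + P) =
        (PSY_S P n ^ 2 + PSY_S P n) ^ 2 + P ^ 2 + P +
          2 * (PSY_S P n ^ 2 * P - PSY_S P n ^ 2 * PSY_S P n) := by ring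
    rw [e1, ih, h2, zero_mul, add_zero]
    have e2 : (P ^ (2 ^ (n + 1)) + P) ^ 2 + P ^ 2 + P =
        P ^ (2 ^ (n + 1 + 1)) + P + 2 * (P ^ (2 ^ (n + 1)) * P + P ^ 2) := by
      rw [pow_succ 2 (n + 1), pow_mul]; ring
    rw [e2, h2, zero_mul, add_zero]

theorem PSY_pow {k : Type} [Field k] {P : LS k} (hP : P ∈ GE k 1) (n : ℕ) : P ^ n ∈ GE k n := by
  induction n with
  | zero =>
    rw [pow_zero]
    exact one_mem_PS
  | succ n ih =>
    rw [pow_succ]
    have := GE_mul ih hP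
    push_cast
    exact this

theorem PSY_step {k : Type} [Field k] (h2 : (2 : LS k) = 0) {P : LS k} (hP : P ∈ GE k 1) (n : ℕ) :
    PSY_S P (n + 1) - PSY_S P n ∈ GE k ((n : ℤ) + 2) := by
  have h1 : PSY_S P (n + 1) - PSY_S P n = P ^ (2 ^ (n + 1)) := by
    show PSY_S P n ^ 2 + P - PSY_S P n = _
    have e1 : PSY_S P n ^ 2 + P - PSY_S P n =
        (PSY_S P n ^ 2 + PSY_S P n) + P - 2 * PSY_S P n := by ring
    have e2 : P ^ (2 ^ (n + 1)) + P + P = P ^ (2 ^ (n + 1)) + 2 * P := by ring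
    rw [e1, PSY_id h2, h2, zero_mul, sub_zero, e2, h2, zero_mul, add_zero]
  rw [h1]
  refine GE_mono ?_ (PSY_pow hP _)
  have : n + 1 < 2 ^ (n + 1) := Nat.lt_two_pow_self
  push_cast
  have h3 : ((n + 1 : ℕ) : ℤ) < ((2 ^ (n + 1) : ℕ) : ℤ) := by exact_mod_cast this
  push_cast at h3
  linarith

theorem PSY_S_mem {k : Type} [Field k] {P : LS k} (hP : P ∈ GE k 1) (n : ℕ) :
    PSY_S P n ∈ GE k 1 := by
  induction n with
  | zero => exact hP
  | succ n ih =>
    show PSY_S P n ^ 2 + P ∈ GE k 1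
    refine (GE k 1).add_mem ?_ hP
    rw [sq]
    exact GE_mono (by norm_num) (GE_mul ih ih)

theorem PSY_stab {k : Type} [Field k] (h2 : (2 : LS k) = 0) {P : LS k} (hP : P ∈ GE k 1) (a d : ℕ)
    (n : ℤ) (hn : n ≤ a) : cf (PSY_S P (a + d)) n = cf (PSY_S P a) n := by
  induction d with
  | zero => rfl
  | succ d ih =>
    rw [← ih]
    have := PSY_step h2 hP (a + d) n (by push_cast; omega)
    rw [cf_sub] at this
    exact sub_eq_zero.1 this

theorem PSY_solve {k : Type} [Field k] (h2 : (2 : LS k) = 0) {P : LS k} (hP : P ∈ GE k 1) :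
    ∃ Z : LS k, Z ∈ GE k 1 ∧ Z ^ 2 + Z = P := by
  let Z : LS k := ofFun (fun n => cf (PSY_S P n.toNat) n) 1 (fun n hn => PSY_S_mem hP _ n hn)
  have hZ1 : Z ∈ GE k 1 := fun n hn => PSY_S_mem hP _ n hn
  have hZ : ∀ (N : ℕ), Z - PSY_S P N ∈ GE k ((N : ℤ) + 1) := by
    intro N n hn
    rw [cf_sub, cf_ofFun, sub_eq_zero]
    rcases le_or_gt n 0 with h | h
    · rw [PSY_S_mem hP _ n (by omega), PSY_S_mem hP _ n (by omega)]
    · have h1 : N = n.toNat + (N - n.toNat) := by omega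
      rw [h1, PSY_stab h2 hP _ _ n (by omega)]
  refine ⟨Z, hZ1, ?_⟩
  ext n
  rcases lt_or_ge n 1 with h | h
  · have e1 : Z ^ 2 + Z ∈ GE k 1 := by
      refine (GE k 1).add_mem ?_ hZ1
      rw [sq]
      exact GE_mono (by norm_num) (GE_mul hZ1 hZ1)
    rw [e1 n h, hP n h]
  · have h3 := hZ n.toNat
    have h4 : Z ^ 2 + Z - (PSY_S P n.toNat ^ 2 + PSY_S P n.toNat) ∈ GE k ((n.toNat : ℤ) + 1) := by
      have e1 : Z ^ 2 + Z - (PSY_S P n.toNat ^ 2 + PSY_S P n.toNat) =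
          (Z - PSY_S P n.toNat) * (Z + PSY_S P n.toNat) + (Z - PSY_S P n.toNat) := by ring
      rw [e1]
      refine (GE k _).add_mem ?_ h3
      have h5 : Z + PSY_S P n.toNat ∈ PS k :=
        (GE k 0).add_mem (GE_mono (by norm_num) hZ1) (GE_mono (by norm_num) (PSY_S_mem hP _))
      have := GE_mul h3 h5
      rwa [add_zero] at this
    have h6 := h4 n (by omega)
    rw [PSY_id h2, cf_sub, sub_eq_zero] at h6
    rw [h6, cf_add]
    have h7 : cf (P ^ (2 ^ (n.toNat + 1))) n = 0 := by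
      refine PSY_pow hP _ n ?_
      have h8 : n.toNat + 1 < 2 ^ (n.toNat + 1) := Nat.lt_two_pow_self
      have h9 : ((n.toNat + 1 : ℕ) : ℤ) < ((2 ^ (n.toNat + 1) : ℕ) : ℤ) := by exact_mod_cast h8
      push_cast at h9 ⊢
      omega
    rw [h7, zero_add]

theorem PSY_aeval {k : Type} [Field k] {a : LS k} (ha : a ∈ PS k) (g : Polynomial k) :
    Polynomial.aeval a g ∈ PS k := by
  induction g using Polynomial.induction_on' with
  | add p q hp hq => rw [map_add]; exact (PS k).add_mem hp hq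
  | monomial n c =>
    rw [Polynomial.aeval_monomial]
    refine PS_mul (C_mem_PS c) ?_
    induction n with
    | zero => rw [pow_zero]; exact one_mem_PS
    | succ n ih => rw [pow_succ]; exact PS_mul ih ha

theorem PSY : PSY_stmt := by
  intro k _ _ f x₀ y₀ h
  have h2 := PSY_two k
  have hC : ∀ c : k, algebraMap k (LS k) c = LS.C c := fun c => rfl
  obtain ⟨g, hg⟩ := Polynomial.X_sub_C_dvd_sub_C_eval (a := x₀) (p := f)
  have ha : (LS.C x₀ + mono 1 1 : LS k) ∈ PS k :=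
    (PS k).add_mem (C_mem_PS _) (GE_mono (by norm_num) (mono_mem_GE 1 1))
  have hP : Polynomial.aeval (LS.C x₀ + mono 1 1 : LS k) f - LS.C (f.eval x₀) ∈ GE k 1 := by
    have e1 := congrArg (Polynomial.aeval (LS.C x₀ + mono 1 1 : LS k)) hg
    rw [map_sub, map_mul, map_sub, Polynomial.aeval_X, Polynomial.aeval_C, Polynomial.aeval_C, hC,
      hC, add_sub_cancel_left] at e1
    rw [e1]
    have := GE_mul (mono_mem_GE (R := k) 1 1) (PSY_aeval ha g)
    rwa [add_zero] at this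
  obtain ⟨Z, hZ1, hZ2⟩ := PSY_solve h2 hP
  refine ⟨LS.C y₀ + Z, ?_, ?_, ?_⟩
  · intro n hn
    rw [cf_add, cf_C, if_neg (by omega), hZ1 n (by omega), add_zero]
  · rw [cf_add, cf_C, if_pos rfl, hZ1 0 (by norm_num), add_zero]
  · have e1 : (LS.C y₀ + Z) ^ 2 + (LS.C y₀ + Z) =
        (LS.C y₀ ^ 2 + LS.C y₀) + (Z ^ 2 + Z) + 2 * (LS.C y₀ * Z) := by ring
    rw [e1, hZ2, h2, zero_mul, add_zero, ← map_pow, ← map_add, h]
    ring

end

end MX
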