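import Pool.Agent.helper19.MX.SpecC

set_option autoImplicit false

namespace MX

open Pool.Agent.helper53.AU AN
open scoped Classical Topology

theorem ZER (hQV4 : QV4_stmt) (hQV5 : QV5_stmt) : ZER_stmt := by
  intro k F _ _ _ _ hFF P₀ G M S hReg hG hM hP₀ hS
  have hfin := hQV4 k F hFF G hG
  have hsum := hQV5 k F hFF G hG
  have hsub : (Function.support fun P : Place k F => P.ord G) ⊆
      ((hfin.toFinset ∪ insert P₀ S : Finset (Place k F)) : Set (Place k F)) := by
    intro P hP
    rw [Finset.coe_union, Set.Finite.coe_toFinset]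
    exact Or.inl hP
  rw [finsum_eq_sum_of_support_subset _ hsub] at hsum
  have h1 : ∑ P ∈ insert P₀ S, P.ord G ≤ ∑ P ∈ hfin.toFinset ∪ insert P₀ S, P.ord G := by
    refine Finset.sum_le_sum_of_subset_of_nonneg Finset.subset_union_right ?_
    intro P _ hP
    have hne : P ≠ P₀ := by
      rintro rfl
      exact hP (Finset.mem_insert_self _ _)
    exact (hReg P hne).le hG
  rw [Finset.sum_insert hP₀] at h1
  have h2 : (S.card : ℤ) ≤ ∑ P ∈ S, P.ord G := by
    have h3 : ∑ P ∈ S, (1 : ℤ) ≤ ∑ P ∈ S, P.ord G :=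
      Finset.sum_le_sum fun P hP => (hS P hP).le hG
    simpa using h3
  linarith

end MX
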